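import Pool.Agent.MP_3ee8cb_gt.DNW.Pair

/-! The Maurey-Pisier inequality for the standard Gaussian measure. -/

namespace Pool.Agent.MP_3ee8cb_gt.DFH

open MeasureTheory ProbabilityTheory Real Set Function DNW

variable {W : Type} [NormedAddCommGroup W] [NormedSpace ℝ W] [CompleteSpace W]

theorem jensen {α : Type} [MeasurableSpace α] (μ : Measure α) [IsProbabilityMeasure μ]
    {Φ : W → ℝ} (hc : ConvexOn ℝ univ Φ) (c : Continuous Φ) (h0 : ∀ w, 0 ≤ Φ w) {f : α → W}
    (hf : Integrable f μ) :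
    ENNReal.ofReal (Φ (∫ x, f x ∂μ)) ≤ ∫⁻ x, ENNReal.ofReal (Φ (f x)) ∂μ := by
  have m : AEStronglyMeasurable (fun x => Φ (f x)) μ := c.comp_aestronglyMeasurable hf.1
  by_cases h : Integrable (fun x => Φ (f x)) μ
  · rw [← ofReal_integral_eq_lintegral_ofReal h (.of_forall fun x => h0 _)]
    exact ENNReal.ofReal_le_ofReal
      (hc.map_integral_le c.continuousOn isClosed_univ (.of_forall fun _ => trivial) hf h)
  · rw [← lintegral_ofReal_ne_top_iff_integrable m (.of_forall fun x => h0 _), not_ne_iff] at h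
    exact h ▸ le_top

variable {E : Type} [NormedAddCommGroup E] [InnerProductSpace ℝ E] [FiniteDimensional ℝ E]
  [MeasurableSpace E] [BorelSpace E]

theorem int_lip {G : E → W} (hG : ContDiff ℝ 1 G) {L : ℝ} (hL : ∀ x, ‖fderiv ℝ G x‖ ≤ L) :
    Integrable G (stdGaussian E) := by
  have i : Integrable (fun x : E => ‖G 0‖ + L * ‖x‖) (stdGaussian E) :=
    (integrable_const _).add (IsGaussian.integrable_id.norm.const_mul L)
  refine i.mono' hG.continuous.aestronglyMeasurable (.of_forall fun x => ?_)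
  have := convex_univ.norm_image_sub_le_of_norm_fderiv_le (f := G) (C := L)
    (fun x _ => hG.differentiable one_ne_zero x) (fun x _ => hL x) (mem_univ 0) (mem_univ x)
  rw [sub_zero] at this
  linarith [norm_le_insert' (G x) (G 0)]

theorem path {G : E → W} (hG : ContDiff ℝ 1 G) (p : E × E) :
    G p.2 - G p.1 = ∫ t in (0 : ℝ)..(π / 2), fderiv ℝ G (rot t p).1 (rot t p).2 := by
  have cr : Continuous fun t => rot t p := rot_cont.comp (continuous_id.prodMk continuous_const)
  have cf := hG.continuous_fderiv one_ne_zero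
  rw [intervalIntegral.integral_eq_sub_of_hasDerivAt (f := fun t => G (rot t p).1)
    (fun t _ => (hG.differentiable one_ne_zero _).hasFDerivAt.comp_hasDerivAt t (rot_d1 p t))
    (Continuous.intervalIntegrable (by fun_prop) _ _)]
  simp [rot]

theorem rot_mp (t : ℝ) : MeasurePreserving (rot t) ((stdGaussian E).prod (stdGaussian E))
    ((stdGaussian E).prod (stdGaussian E)) :=
  ⟨(rot_cont.comp (continuous_const.prodMk continuous_id)).measurable,
    IsGaussian.map_rotation_eq_self (μ := stdGaussian E) integral_id_stdGaussian t⟩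

theorem pis {G : E → W} (hG : ContDiff ℝ 1 G) {L : ℝ} (hL : ∀ x, ‖fderiv ℝ G x‖ ≤ L)
    {Φ : W → ℝ} (hc : ConvexOn ℝ univ Φ) (c : Continuous Φ) (h0 : ∀ w, 0 ≤ Φ w) :
    ∫⁻ x, ENNReal.ofReal (Φ (G x - ∫ y, G y ∂stdGaussian E)) ∂stdGaussian E ≤
      ∫⁻ x, ∫⁻ y, ENNReal.ofReal (Φ ((π / 2) • fderiv ℝ G x y)) ∂stdGaussian E ∂stdGaussian E := by
  have cf := hG.continuous_fderiv one_ne_zero
  have cG := hG.continuous
  have hp : 0 < π / 2 := by positivity
  obtain ⟨ν, hν⟩ : ∃ ν : Measure ℝ,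
      ν = (ENNReal.ofReal (π / 2))⁻¹ • volume.restrict (Ioc 0 (π / 2)) := ⟨_, rfl⟩
  have : IsProbabilityMeasure ν := ⟨by
    rw [hν, Measure.smul_apply, Measure.restrict_apply_univ, Real.volume_Ioc, sub_zero]
    exact ENNReal.inv_mul_cancel (by simpa using pi_pos) ENNReal.ofReal_ne_top⟩
  obtain ⟨Ψ, hΨ⟩ : ∃ Ψ : E × E → ENNReal,
      Ψ = fun p => ENNReal.ofReal (Φ ((π / 2) • fderiv ℝ G p.1 p.2)) := ⟨_, rfl⟩
  have mΨ : Measurable Ψ :=
    hΨ ▸ ENNReal.measurable_ofReal.comp (Continuous.measurable (by fun_prop))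
  have s2 : ∀ p : E × E, ENNReal.ofReal (Φ (G p.2 - G p.1)) ≤ ∫⁻ t, Ψ (rot t p) ∂ν := fun p => by
    have cr : Continuous fun t => rot t p := rot_cont.comp (continuous_id.prodMk continuous_const)
    have i : Integrable (fun t => (π / 2) • fderiv ℝ G (rot t p).1 (rot t p).2) ν := by
      rw [hν]
      refine Integrable.smul_measure ?_ (by simpa using pi_pos)
      exact (Continuous.integrableOn_Icc (by fun_prop)).mono_set Ioc_subset_Icc_self
    have j := jensen ν hc c h0 i
    rw [hΨ]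
    refine le_of_eq_of_le ?_ j
    rw [path hG p, hν, integral_smul_measure, integral_smul, smul_smul, ENNReal.toReal_inv,
      ENNReal.toReal_ofReal hp.le, inv_mul_cancel₀ hp.ne', one_smul,
      intervalIntegral.integral_of_le hp.le]
  have m2 : Measurable fun p : E × E => ENNReal.ofReal (Φ (G p.2 - G p.1)) :=
    ENNReal.measurable_ofReal.comp (Continuous.measurable (by fun_prop))
  calc _ ≤ ∫⁻ x, ∫⁻ y, ENNReal.ofReal (Φ (G x - G y)) ∂stdGaussian E ∂stdGaussian E := by
        refine lintegral_mono fun x => le_of_eq_of_le ?_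
          (jensen _ hc c h0 ((integrable_const (G x)).sub (int_lip hG hL)))
        simp only [Pi.sub_apply]
        rw [integral_sub (integrable_const _) (int_lip hG hL)]
        simp
    _ = ∫⁻ p : E × E, ENNReal.ofReal (Φ (G p.2 - G p.1))
          ∂(stdGaussian E).prod (stdGaussian E) := (lintegral_prod_symm _ m2.aemeasurable).symm
    _ ≤ ∫⁻ p, ∫⁻ t, Ψ (rot t p) ∂ν ∂(stdGaussian E).prod (stdGaussian E) := lintegral_mono s2
    _ = ∫⁻ t, ∫⁻ p, Ψ (rot t p) ∂(stdGaussian E).prod (stdGaussian E) ∂ν :=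
        lintegral_lintegral_swap
          (mΨ.comp (rot_cont.measurable.comp measurable_swap)).aemeasurable
    _ = ∫⁻ p, Ψ p ∂(stdGaussian E).prod (stdGaussian E) := by
        simp only [fun t => (rot_mp (E := E) t).lintegral_comp mΨ, lintegral_const,
          measure_univ, mul_one]
    _ = _ := by rw [lintegral_prod _ mΨ.aemeasurable, hΨ]

end Pool.Agent.MP_3ee8cb_gt.DFH
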